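import Pool.Agent.helper66.SL.SpecC

set_option autoImplicit false

namespace Pool.Agent.helper66.SL

open Pool.Agent.helper52.FC

theorem HFP_j {E : Type} {L : Set (E → SignType)} {p : E → SignType} (hp : Cork L p 2) {S : E → SignType}
    (hS : IsTope L S) (hle : Le p S) {e : E} (he : Wall L S e) (hpe : p e = 0) :
    ∃ j, j ≠ e ∧ ∀ g, (Wall L S g ∧ p g = 0) ↔ g = e ∨ g = j := by
  obtain ⟨x, y, hxy, h⟩ := Set.ncard_eq_two.mp (hp.2 S hS hle)
  have hm : ∀ g, (Wall L S g ∧ p g = 0) ↔ g = x ∨ g = y := by
    intro g
    have : g ∈ {e | Wall L S e ∧ p e = 0} ↔ g ∈ ({x, y} : Set E) := by rw [h]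
    simpa using this
  rcases (hm e).mp ⟨he, hpe⟩ with h1 | h1
  · exact ⟨y, fun h2 => hxy (by rw [← h1, ← h2]), fun g => by rw [hm g, h1]⟩
  · exact ⟨x, fun h2 => hxy (by rw [← h1, ← h2]), fun g => by rw [hm g, h1, or_comm]⟩

theorem HFP_k {E : Type} [Finite E] {L : Set (E → SignType)} (hL : R3 L) {p : E → SignType} (hp : Cork L p 2)
    {S : E → SignType} (hS : IsTope L S) (hle : Le p S) :
    ∃ k, ∀ g, (Wall L S g ∧ p g ≠ 0) ↔ g = k := by
  have h3 : {g | Wall L S g}.ncard = 3 := by
    have := hL.rk.2 S hS (fun e => Or.inl rfl)
    simpa using this
  have h2 := hp.2 S hS hle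
  have hsub : {g | Wall L S g ∧ p g = 0} ⊆ {g | Wall L S g} := fun g hg => hg.1
  have hd : {g | Wall L S g ∧ p g ≠ 0} = {g | Wall L S g} \ {g | Wall L S g ∧ p g = 0} := by
    ext g
    simp only [Set.mem_ofPred_eq, Set.mem_sdiff, not_and]
    constructor
    · rintro ⟨h4, h5⟩
      exact ⟨h4, fun _ => h5⟩
    · rintro ⟨h4, h5⟩
      exact ⟨h4, h5 h4⟩
  have h1 : {g | Wall L S g ∧ p g ≠ 0}.ncard = 1 := by
    rw [hd, Set.ncard_sdiff hsub (Set.toFinite _), h3, h2]
  obtain ⟨k, hk⟩ := Set.ncard_eq_one.mp h1
  refine ⟨k, fun g => ?_⟩
  have : g ∈ {g | Wall L S g ∧ p g ≠ 0} ↔ g ∈ ({k} : Set E) := by rw [hk]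
  simpa using this

theorem HFP_sq {s : SignType} (h : s ≠ 0) : (s : ℝ) * (s : ℝ) = 1 := by
  cases s
  · exact absurd rfl h
  · simp
  · simp

theorem HFP_proof (hXUQ : XUQ) (hPAT : PAT) (hSZZ : SZZ) (hPUN : PUN) (hCDC : CDC) : HFP := by
  classical
  intro E _ L hL p hp T hT hpT k0 hk0 hpk0 a0 f hf hfa c hcT hc
  have hG := hL.good
  have supp := fun {S : E → SignType} (hS : IsTope L S) (e : E) => tope_supp hG.om hG.simple hS e
  refine ⟨fun S g => if p g = 0 then f g else (S g : ℝ) * c S, ?_, ?_⟩
  · intro g hg
    by_cases h : p g = 0
    · simp only [h, if_true]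
      exact hfa g hg h
    · simp only [h, if_false]
      obtain ⟨k, hk⟩ := HFP_k hL hp hT hpT
      have e1 : g = k := (hk g).mp ⟨hg, h⟩
      have e2 : k0 = k := (hk k0).mp ⟨hk0, hpk0⟩
      rw [e1, ← e2, hcT, ← mul_assoc, HFP_sq (supp hT k0), one_mul]
  · intro S hS hpS e he hpe
    refine ⟨by simp only [hpe, if_true], ?_⟩
    intro Z hZ hZS hZe
    obtain ⟨j, hje, hj⟩ := HFP_j hp hS hpS he hpe
    obtain ⟨k, hk⟩ := HFP_k hL hp hS hpS
    have hwj : Wall L S j ∧ p j = 0 := (hj j).mpr (Or.inr rfl)
    have hwk : Wall L S k ∧ p k ≠ 0 := (hk k).mpr rfl
    have hS' : IsTope L (fl S e) := he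
    have hpS' : Le p (fl S e) := by
      intro g
      by_cases hg : g = e
      · left; rw [hg]; exact hpe
      · rw [fl_ne S hg]; exact hpS g
    by_cases hZj : Z j = 0
    · -- Z = p
      have hZp : Z = p := by
        refine hXUQ E L hG S hS Z hZ.1 p hp.1 hZS hpS fun g hg => ?_
        obtain ⟨j', hj'e, hj'⟩ := HFP_j hZ hS hZS he hZe
        have hjj : j = j' := by
          rcases (hj' j).mp ⟨hwj.1, hZj⟩ with h | h
          · exact absurd h hje
          · exact h
        constructor
        · intro h
          have := (hj' g).mp ⟨hg, h⟩
          rw [← hjj] at this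
          exact ((hj g).mpr this).2
        · intro h
          have := (hj g).mp ⟨hg, h⟩
          rw [hjj] at this
          exact ((hj' g).mpr this).2
      refine ⟨f, by rw [hZp]; exact hf, ?_, ?_⟩
      · intro g _ hg
        rw [hZp] at hg
        simp only [hg, if_true]
      · intro g _ hg
        rw [hZp] at hg
        simp only [hg, if_true]
    · obtain ⟨j', hj'e, hj'⟩ := HFP_j hZ hS hZS he hZe
      have hkj' : j' = k := by
        have h1 := (hj' j').mpr (Or.inr rfl)
        by_cases h2 : p j' = 0
        · rcases (hj j').mp ⟨h1.1, h2⟩ with h | h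
          · exact absurd h hj'e
          · rw [h] at h1
            exact absurd h1.2 hZj
        · exact (hk j').mp ⟨h1.1, h2⟩
      rw [hkj'] at hj' hj'e
      have hZk : Z k = 0 := ((hj' k).mpr (Or.inr rfl)).2
      have hCD := hCDC E L hG hL.cl
      obtain ⟨f', hf', hf'e, hf'k⟩ := hCD.ext Z hZ S hS hZS e k hj'e.symm he hwk.1 hZe hZk (f e) ((S k : ℝ) * c S)
      have hZne : Z ≠ p := by
        intro h
        rw [h] at hZk
        exact hwk.2 hZk
      refine ⟨f', hf', ?_, ?_⟩
      · intro g hg hZg
        rcases (hj' g).mp ⟨hg, hZg⟩ with h | h
        · rw [h]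
          simp only [hpe, if_true]
          exact hf'e.symm
        · rw [h]
          simp only [hwk.2, if_false]
          exact hf'k.symm
      · -- walls of the neighbour
        have hTr : Tr L p S e ↔ Vx L 3 Z := by
          constructor
          · rintro ⟨q, hq, hqS, hqe, hqp⟩
            have hqZ : q = Z := by
              obtain ⟨j'', hj''e, hj''⟩ := HFP_j hq.1 hS hqS he hqe
              have h1 := (hj'' j'').mpr (Or.inr rfl)
              have hj2 : j'' = k := by
                by_cases h2 : p j'' = 0
                · exfalso
                  rcases (hj j'').mp ⟨h1.1, h2⟩ with h | h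
                  · exact hj''e h
                  · apply hqp
                    refine hXUQ E L hG S hS q hq.1.1 p hp.1 hqS hpS fun g hg => ?_
                    rw [h] at hj''
                    constructor
                    · intro h3
                      exact ((hj g).mpr ((hj'' g).mp ⟨hg, h3⟩)).2
                    · intro h3
                      exact ((hj'' g).mpr ((hj g).mp ⟨hg, h3⟩)).2
                · exact (hk j'').mp ⟨h1.1, h2⟩
              rw [hj2] at hj''
              refine hXUQ E L hG S hS q hq.1.1 Z hZ.1 hqS hZS fun g hg => ?_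
              constructor
              · intro h3
                exact ((hj' g).mpr ((hj'' g).mp ⟨hg, h3⟩)).2
              · intro h3
                exact ((hj'' g).mpr ((hj' g).mp ⟨hg, h3⟩)).2
            rw [← hqZ]
            exact hq
          · intro h
            exact ⟨Z, h, hZS, hZe, hZne⟩
        obtain ⟨hsz, hszw⟩ := hSZZ E L hG hL.cl Z hZ
        rcases hsz with h2 | h3
        · -- double
          have hnt : ¬ Tr L p S e := by
            rw [hTr]
            intro h
            have := h.2
            omega
          have hcS := (hc S hS hpS e he hpe).2 hnt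
          intro g hg hZg
          have hgS : Wall L S g := hszw h2 S hS hZS g hZg
          rcases (hj' g).mp ⟨hgS, hZg⟩ with h | h
          · rw [h]
            simp only [hpe, if_true]
            exact hf'e.symm
          · rw [h]
            simp only [hwk.2, if_false]
            rw [hcS, fl_ne S hj'e]
            exact hf'k.symm
        · -- triple
          have ht : Tr L p S e := hTr.mpr ⟨hZ, h3⟩
          have hcS := (hc S hS hpS e he hpe).1 ht
          obtain ⟨k', hk'e, hk'k, hz⟩ : ∃ k', k' ≠ e ∧ k' ≠ k ∧ ∀ g, Z g = 0 → g = e ∨ g = k ∨ g = k' := by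
            obtain ⟨x, y, z, hxy, hxz, hyz, hset⟩ := Set.ncard_eq_three.mp h3
            have hm : ∀ g, Z g = 0 ↔ g = x ∨ g = y ∨ g = z := by
              intro g
              have : g ∈ {g | Z g = 0} ↔ g ∈ ({x, y, z} : Set E) := by rw [hset]
              simpa using this
            have hex := (hm e).mp hZe
            have hkx := (hm k).mp hZk
            rcases hex with h | h | h <;> rcases hkx with h' | h' | h'
            · exact absurd (h'.trans h.symm) hj'e
            · exact ⟨z, by rw [h]; exact hxz.symm, by rw [h']; exact hyz.symm, fun g hg => by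
                rcases (hm g).mp hg with h5 | h5 | h5
                · left; rw [h5, h]
                · right; left; rw [h5, h']
                · right; right; exact h5⟩
            · exact ⟨y, by rw [h]; exact hxy.symm, by rw [h']; exact hyz, fun g hg => by
                rcases (hm g).mp hg with h5 | h5 | h5
                · left; rw [h5, h]
                · right; right; exact h5
                · right; left; rw [h5, h']⟩
            · exact ⟨z, by rw [h]; exact hyz.symm, by rw [h']; exact hxz.symm, fun g hg => by
                rcases (hm g).mp hg with h5 | h5 | h5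
                · right; left; rw [h5, h']
                · left; rw [h5, h]
                · right; right; exact h5⟩
            · exact absurd (h'.trans h.symm) hj'e
            · exact ⟨x, by rw [h]; exact hxy, by rw [h']; exact hxz, fun g hg => by
                rcases (hm g).mp hg with h5 | h5 | h5
                · right; right; exact h5
                · left; rw [h5, h]
                · right; left; rw [h5, h']⟩
            · exact ⟨y, by rw [h]; exact hyz, by rw [h']; exact hxy.symm, fun g hg => by
                rcases (hm g).mp hg with h5 | h5 | h5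
                · right; left; rw [h5, h']
                · right; right; exact h5
                · left; rw [h5, h]⟩
            · exact ⟨x, by rw [h]; exact hxz, by rw [h']; exact hxy, fun g hg => by
                rcases (hm g).mp hg with h5 | h5 | h5
                · right; right; exact h5
                · right; left; rw [h5, h']
                · left; rw [h5, h]⟩
            · exact absurd (h'.trans h.symm) hj'e
          have hZk' : Z k' = 0 := by
            by_contra hne
            have hsub : {g | Z g = 0} ⊆ ({e, k} : Set E) := by
              intro g hg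
              rcases hz g hg with h | h | h
              · left; exact h
              · right; exact h
              · exfalso
                apply hne
                rw [← h]
                exact hg
            have h4 := Set.ncard_le_ncard hsub (Set.toFinite _)
            have h5 : ({e, k} : Set E).ncard = 2 := Set.ncard_pair hj'e.symm
            rw [h3] at h4
            omega
          obtain ⟨hp1, hp2, hp3⟩ := hPAT E L hG Z hZ e k k' hj'e.symm hk'e hk'k hZe hZk hZk' hz S hS hZS he hwk.1
          have hrel := hf' S hS hZS e k k' hj'e.symm hk'e hk'k he hwk.1 hZe hZk hZk'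
          have hpk' : p k' ≠ 0 := by
            intro h
            rcases hPUN E L hL p Z hp hZ e k' hk'e.symm hpe h hZe hZk' with h5 | h5
            · exact hZne h5
            · have : Z k = -p k := by rw [h5]
              rw [hZk] at this
              exact hwk.2 (by simpa using this.symm)
          intro g hg hZg
          rcases hz g hZg with h | h | h
          · rw [h]
            simp only [hpe, if_true]
            exact hf'e.symm
          · rw [h] at hg
            exact absurd hg hp3
          · rw [h]
            simp only [hpk', if_false]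
            rw [hcS, fl_ne S hk'e]
            have hs1 := HFP_sq (supp hS k')
            have hs2 := HFP_sq (supp hS k)
            rw [hf'e, hf'k] at hrel
            calc (S k' : ℝ) * (c S + (S e : ℝ) * f e)
                = (S k' : ℝ) * ((S e : ℝ) * f e + (S k : ℝ) * ((S k : ℝ) * c S)) := by
                  rw [← mul_assoc (S k : ℝ), hs2]; ring
              _ = (S k' : ℝ) * ((S k' : ℝ) * f' k') := by rw [← hrel]
              _ = f' k' := by rw [← mul_assoc, hs1, one_mul]

end Pool.Agent.helper66.SL
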