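import Pool.Agent.helper66.SL.SpecK

set_option autoImplicit false

namespace Pool.Agent.helper66.SL

open Pool.Agent.helper52.FC

theorem KGN_proof (hKF3 : KF3) : KGN := by
  classical
  intro E _ L r P φ hK
  obtain ⟨hinj, _⟩ := hKF3 E L r P φ hK
  have hfin : Finite {T : E → SignType // IsTope L T} := inferInstance
  let ι := {q : {T : E → SignType // IsTope L T} × {T : E → SignType // IsTope L T} //
    vp φ q.1.1 - vp φ q.2.1 ≠ 0}
  have hι : Finite ι := inferInstance
  obtain ⟨l, hl⟩ := Module.exists_dual_forall_apply_ne_zero (K := ℝ)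
    (fun i : ι => vp φ i.1.1.1 - vp φ i.1.2.1) (fun i => i.2)
  refine ⟨l, fun S T hS hT h => ?_⟩
  by_contra hne
  have h1 : vp φ S - vp φ T ≠ 0 := by
    intro h2
    exact hne (hinj S T hS hT (sub_eq_zero.mp h2))
  have h3 := hl ⟨(⟨S, hS⟩, ⟨T, hT⟩), h1⟩
  apply h3
  show l (vp φ S - vp φ T) = 0
  rw [map_sub, h, sub_self]

end Pool.Agent.helper66.SL
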